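import Pool.Agent.Y262.EG.Stm

/-!
# Project EG: the constants on both sides of the cylinder agree
-/

set_option autoImplicit false

open Set Filter Topology MeasureTheory
open scoped ContDiff

noncomputable section

namespace Pool.Agent.Y115.EG

open Pool.Agent.Y262.EG

/-- The partial derivative in the direction of the closed geodesics vanishes in the strip. -/
theorem py_zero {Ω : Set ℂ} {φ : ℂ → ℝ} {L δ' : ℝ} {g : ℝ → ℝ} (hΩ : IsOpen Ω)
    (hφ : ContDiffOn ℝ ∞ φ Ω) (hs : Stp L δ' ⊆ Ω) (hr : ∀ z ∈ Stp L δ', φ z = g z.re)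
    {z : ℂ} (hz : z ∈ Stp L δ') : py φ z = 0 := by
  have hd : DifferentiableAt ℝ φ z :=
    (hφ.contDiffAt (hΩ.mem_nhds (hs hz))).differentiableAt (by simp)
  have h1 : HasDerivAt (fun s : ℝ => z + s * Complex.I) Complex.I 0 := by
    have h2 : HasDerivAt (fun s : ℝ => (s : ℂ)) 1 0 := Complex.ofRealCLM.hasDerivAt
    simpa using (h2.mul_const Complex.I).const_add z
  have h3 : HasFDerivAt φ (fderiv ℝ φ z) ((fun s : ℝ => z + s * Complex.I) 0) := by
    simpa using hd.hasFDerivAt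
  have h4 : HasDerivAt (φ ∘ fun s : ℝ => z + s * Complex.I) (fderiv ℝ φ z Complex.I) 0 :=
    h3.comp_hasDerivAt 0 h1
  have h5 : (φ ∘ fun s : ℝ => z + s * Complex.I) = fun _ => φ z := by
    funext s
    have hre : (z + s * Complex.I).re = z.re := by simp
    have hm : z + s * Complex.I ∈ Stp L δ' := by
      constructor
      · rw [hre]; exact hz.1
      · rw [hre]; exact hz.2
    show φ (z + s * Complex.I) = φ z
    rw [hr _ hm, hr _ hz, hre]
  rw [h5] at h4
  exact h4.unique (hasDerivAt_const 0 (φ z))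

/-- A horizontal solution which crosses the cylinder. -/
theorem solution {Ω : Set ℂ} {φ : ℂ → ℝ} {L δ' : ℝ} {g : ℝ → ℝ} (hΩ : IsOpen Ω)
    (hφ : ContDiffOn ℝ ∞ φ Ω) (hs : Stp L δ' ⊆ Ω) (hr : ∀ z ∈ Stp L δ', φ z = g z.re)
    (hL : 0 < L) (hδ : 0 < δ') :
    ∃ (b : ℝ → Y) (I : Set ℝ) (t1 : ℝ), IsOpen I ∧ IsPreconnected I ∧ (0 : ℝ) ∈ I ∧ t1 ∈ I ∧
      (∀ t ∈ I, b t ∈ YO Ω ∧ HasDerivAt b (XX φ (b t)) t) ∧
      b 0 = (((-(δ' / 3) : ℝ) : ℂ), 0) ∧ b t1 = (((L + δ' / 3 : ℝ) : ℂ), 0) := by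
  set lo : ℝ := -(2 * δ' / 3) with hlo
  set hi : ℝ := L + 2 * δ' / 3 with hhi
  have hlh : lo ≤ hi := by rw [hlo, hhi]; linarith
  have hstp : ∀ x ∈ Icc lo hi, ((x : ℝ) : ℂ) ∈ Stp L δ' := by
    intro x hx
    refine ⟨?_, ?_⟩
    · rw [Complex.ofReal_re]; have := hx.1; rw [hlo] at this; linarith
    · rw [Complex.ofReal_re]; have := hx.2; rw [hhi] at this; linarith
  have hgc : ContinuousOn g (Icc lo hi) := by
    have h1 : ContinuousOn (fun x : ℝ => φ (x : ℂ)) (Icc lo hi) := by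
      refine (hφ.continuousOn).comp Complex.continuous_ofReal.continuousOn ?_
      intro x hx
      exact hs (hstp x hx)
    refine h1.congr ?_
    intro x hx
    have := hr _ (hstp x hx)
    rw [Complex.ofReal_re] at this
    exact this.symm
  set cl : ℝ → ℝ := fun x => max lo (min x hi) with hcl
  have hclc : Continuous cl := by
    rw [hcl]; exact continuous_const.max (continuous_id.min continuous_const)
  have hclm : ∀ x, cl x ∈ Icc lo hi := by
    intro x
    rw [hcl]
    exact ⟨le_max_left _ _, max_le hlh (min_le_right _ _)⟩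
  have hcle : ∀ x ∈ Icc lo hi, cl x = x := by
    intro x hx
    rw [hcl]
    show max lo (min x hi) = x
    rw [min_eq_left hx.2, max_eq_right hx.1]
  set G : ℝ → ℝ := fun x => Real.exp (g (cl x)) with hG
  have hGc : Continuous G := by
    rw [hG]
    exact Real.continuous_exp.comp (hgc.comp_continuous hclc hclm)
  have hGp : ∀ x, 0 < G x := fun x => Real.exp_pos _
  -- lower bound
  obtain ⟨m, hm, hGm⟩ : ∃ m : ℝ, 0 < m ∧ ∀ x, m ≤ G x := by
    obtain ⟨x0, -, hx0⟩ := (isCompact_Icc (a := lo) (b := hi)).exists_isMinOn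
      (nonempty_Icc.2 hlh) hgc
    refine ⟨Real.exp (g x0), Real.exp_pos _, ?_⟩
    intro x
    exact Real.exp_le_exp.2 (hx0 (hclm x))
  set x0 : ℝ := -(δ' / 3) with hx0
  set T : ℝ → ℝ := fun x => ∫ s in x0..x, G s with hT
  have hTd : ∀ x, HasDerivAt T (G x) x := by
    intro x
    exact intervalIntegral.integral_hasDerivAt_right (hGc.intervalIntegrable _ _)
      (hGc.stronglyMeasurableAtFilter _ _) hGc.continuousAt
  have hT0 : T x0 = 0 := by rw [hT]; simp
  have hTm : StrictMono T := by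
    refine strictMono_of_deriv_pos ?_
    intro x
    rw [(hTd x).deriv]
    exact hGp x
  have hTc : Continuous T := continuous_iff_continuousAt.2 fun x => (hTd x).continuousAt
  have hTmm : Monotone fun x => T x - m * x := by
    refine monotone_of_deriv_nonneg ?_ ?_
    · intro x
      exact ((hTd x).sub ((hasDerivAt_id x).const_mul m)).differentiableAt
    · intro x
      have := ((hTd x).sub ((hasDerivAt_id x).const_mul m)).deriv
      have e : (fun x => T x - m * x) = T - (fun y => m * id y) := rfl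
      rw [e, this]
      have := hGm x
      linarith
  have hTs : Function.Surjective T := by
    refine hTc.surjective ?_ ?_
    · refine tendsto_atTop_mono' atTop ?_ ((tendsto_id.const_mul_atTop hm).atTop_add
        (tendsto_const_nhds (x := T 0)))
      filter_upwards [eventually_ge_atTop 0] with x hx
      have := hTmm hx
      simp only [mul_zero, sub_zero] at this
      simp only [id]
      linarith
    · refine tendsto_atBot_mono' atBot ?_ ((tendsto_id.const_mul_atBot hm).atBot_add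
        (tendsto_const_nhds (x := T 0)))
      filter_upwards [eventually_le_atBot 0] with x hx
      have := hTmm hx
      simp only [mul_zero, sub_zero] at this
      simp only [id]
      linarith
  set e : ℝ ≃o ℝ := StrictMono.orderIsoOfSurjective T hTm hTs with he
  have heT : ∀ x, e x = T x := fun x => rfl
  set X : ℝ → ℝ := fun t => e.symm t with hX
  have hXc : Continuous X := e.symm.continuous
  have hXT : ∀ t, T (X t) = t := fun t => e.apply_symm_apply t
  have hTX : ∀ x, X (T x) = x := fun x => e.symm_apply_apply x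
  have hXd : ∀ t, HasDerivAt X (G (X t))⁻¹ t := by
    intro t
    exact HasDerivAt.of_local_left_inverse hXc.continuousAt (hTd (X t)) (hGp _).ne'
      (Eventually.of_forall hXT)
  have hXm : StrictMono X := e.symm.strictMono
  have hin : ∀ x, lo < x → x < hi → (T x ∈ Ioo (T lo) (T hi)) := fun x h1 h2 => ⟨hTm h1, hTm h2⟩
  have hx0lo : lo < x0 := by rw [hlo, hx0]; linarith
  have hx0hi : x0 < hi := by rw [hhi, hx0]; linarith
  refine ⟨fun t => (((X t : ℝ) : ℂ), 0), Ioo (T lo) (T hi), T (L + δ' / 3), isOpen_Ioo,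
    isPreconnected_Ioo, ?_, ?_, ?_, ?_, ?_⟩
  · have := hin x0 hx0lo hx0hi
    rwa [hT0] at this
  · exact hin _ (by rw [hlo]; linarith) (by rw [hhi]; linarith)
  · intro t ht
    have hXt : X t ∈ Ioo lo hi := by
      constructor
      · have := hXm ht.1
        rwa [hTX] at this
      · have := hXm ht.2
        rwa [hTX] at this
    have hst := hstp (X t) ⟨hXt.1.le, hXt.2.le⟩
    refine ⟨hs hst, ?_⟩
    have h1 : HasDerivAt (fun t => ((X t : ℝ) : ℂ)) (((G (X t))⁻¹ : ℝ) : ℂ) t :=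
      (hXd t).ofReal_comp
    have h2 : HasDerivAt (fun t => ((((X t : ℝ) : ℂ), (0 : ℝ)) : Y))
        ((((G (X t))⁻¹ : ℝ) : ℂ), (0 : ℝ)) t := h1.prodMk (hasDerivAt_const t (0 : ℝ))
    have h3 : XX φ (((X t : ℝ) : ℂ), 0) = ((((G (X t))⁻¹ : ℝ) : ℂ), (0 : ℝ)) := by
      have hpy := py_zero hΩ hφ hs hr hst
      have hφX : φ ((X t : ℝ) : ℂ) = g (cl (X t)) := by
        rw [hcle _ ⟨hXt.1.le, hXt.2.le⟩, hr _ hst, Complex.ofReal_re]
      unfold XX
      simp only [Real.cos_zero, Real.sin_zero, mul_one, mul_zero, hpy, add_zero]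
      refine Prod.ext ?_ rfl
      show (⟨Real.exp (-φ ((X t : ℝ) : ℂ)), 0⟩ : ℂ) = _
      rw [hφX, Real.exp_neg]
      rfl
    rw [h3]
    exact h2
  · show ((((X 0 : ℝ) : ℂ), (0 : ℝ)) : Y) = _
    have : X 0 = x0 := by rw [← hT0]; exact hTX x0
    rw [this]
  · show ((((X (T (L + δ' / 3)) : ℝ) : ℂ), (0 : ℝ)) : Y) = _
    rw [hTX]

theorem cross : StUniq → StFrame → StCross := by
  intro hu _ M P _ _ _ _ Ω φ pr q Fl L δ δ' κ C g hUT hG hC f hf a ha z hz w hw hz' hw'
  have hδ' : 0 < δ' := hC.posδ.trans hC.ltδ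
  -- the curvature is negative outside of the flat cylinder
  have hneg : ∀ z ∈ Stp L δ', (z.re < 0 ∨ L < z.re) → curv φ z < 0 := by
    intro z hz hz'
    refine lt_of_le_of_ne (hC.neg z (hC.strip hz)) ?_
    intro h0
    obtain ⟨w, hw0, hwL, hpw⟩ := hC.zero z (hC.strip hz) h0
    have hwS : w ∈ Stp L δ' := ⟨by linarith, by linarith⟩
    obtain ⟨n, hn⟩ := hC.inj z hz w hwS hpw.symm
    have hre : w.re = z.re := by rw [hn]; simp
    rcases hz' with h | h <;> linarith
  refine ⟨hneg z hz hz', ?_⟩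
  -- the function is locally constant
  have hloc : ∀ z ∈ Stp L δ', (z.re < 0 ∨ L < z.re) → ∀ᶠ y in 𝓝 z, a (pr y) = a (pr z) := by
    intro z hz hz'
    obtain ⟨r, hr, -, h2, -⟩ := ha (z, 0) (hC.strip hz) (hneg z hz hz')
    filter_upwards [Metric.ball_mem_nhds z hr] with y hy
    refine (h2 (y, 0) ?_).2
    rw [Metric.mem_ball, Prod.dist_eq]
    show max (dist y z) (dist (0 : ℝ) 0) < r
    rw [dist_self]
    exact max_lt hy hr
  have hcon : ∀ R : Set ℂ, IsOpen R → Convex ℝ R → (∀ z ∈ R, z ∈ Stp L δ' ∧ (z.re < 0 ∨ L < z.re)) →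
      ∀ z ∈ R, ∀ w ∈ R, a (pr z) = a (pr w) := by
    intro R hRo hRc hR z hz w hw
    have hd : ∀ y ∈ R, HasFDerivAt (fun y => a (pr y)) (0 : ℂ →L[ℝ] ℝ) y := by
      intro y hy
      have h1 := hloc y (hR y hy).1 (hR y hy).2
      exact (hasFDerivAt_const (a (pr y)) y).congr_of_eventuallyEq h1
    exact hRo.is_const_of_fderiv_eq_zero hRc.isPreconnected
      (fun y hy => (hd y hy).differentiableAt.differentiableWithinAt)
      (fun y hy => (hd y hy).fderiv) hz hw
  set RL : Set ℂ := {z | -δ' < z.re} ∩ {z | z.re < 0} with hRL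
  set RR : Set ℂ := {z | L < z.re} ∩ {z | z.re < L + δ'} with hRR
  have hRLo : IsOpen RL := (isOpen_lt continuous_const Complex.continuous_re).inter
    (isOpen_lt Complex.continuous_re continuous_const)
  have hRRo : IsOpen RR := (isOpen_lt continuous_const Complex.continuous_re).inter
    (isOpen_lt Complex.continuous_re continuous_const)
  have hRLc : Convex ℝ RL := (convex_halfSpace_re_gt _).inter (convex_halfSpace_re_lt _)
  have hRRc : Convex ℝ RR := (convex_halfSpace_re_gt _).inter (convex_halfSpace_re_lt _)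
  have hRLs : ∀ z ∈ RL, z ∈ Stp L δ' ∧ (z.re < 0 ∨ L < z.re) := by
    rintro z ⟨h1, h2⟩
    have h2' : z.re < 0 := h2
    exact ⟨⟨h1, by linarith [hC.posL]⟩, Or.inl h2⟩
  have hRRs : ∀ z ∈ RR, z ∈ Stp L δ' ∧ (z.re < 0 ∨ L < z.re) := by
    rintro z ⟨h1, h2⟩
    have h1' : L < z.re := h1
    exact ⟨⟨by linarith [hC.posL], h2⟩, Or.inr h1⟩
  have hLc := hcon RL hRLo hRLc hRLs
  have hRc := hcon RR hRRo hRRc hRRs
  -- the crossing orbit
  obtain ⟨b, I, t1, hIo, hIp, h0I, h1I, hb, hb0, hb1⟩ :=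
    solution hUT.opn hUT.smooth hC.strip hC.rot hC.posL hδ'
  obtain ⟨hu1, hu2⟩ := hu Ω φ hUT.opn hUT.smooth
  set zL : ℂ := ((-(δ' / 3) : ℝ) : ℂ) with hzL
  set zR : ℂ := ((L + δ' / 3 : ℝ) : ℂ) with hzR
  have hzLm : zL ∈ RL := by
    refine ⟨?_, ?_⟩
    · show -δ' < zL.re
      rw [hzL, Complex.ofReal_re]; linarith
    · show zL.re < 0
      rw [hzL, Complex.ofReal_re]; linarith
  have hzRm : zR ∈ RR := by
    refine ⟨?_, ?_⟩
    · show L < zR.re
      rw [hzR, Complex.ofReal_re]; linarith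
    · show zR.re < L + δ'
      rw [hzR, Complex.ofReal_re]; linarith
  have hp0 : ((zL, (0 : ℝ)) : Y) ∈ YO Ω := hC.strip (hRLs _ hzLm).1
  have hp1 : ((zR, (0 : ℝ)) : Y) ∈ YO Ω := hC.strip (hRRs _ hzRm).1
  have hcrossing : Fl t1 (zL, 0) = (zR, 0) := by
    have h := hu1 (fun t => Fl t (zL, 0)) b I hIo hIp
      (fun t ht => ⟨hG.maps t _ hp0, (hb t ht).1⟩)
      (fun t ht => ⟨hG.ode t _ hp0, (hb t ht).2⟩) 0 h0I
      (by rw [hb0]; exact hG.zero _ hp0) t1 h1I
    rw [hb1] at h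
    exact h
  have hback : ∀ p ∈ YO Ω, Fl (-t1) (Fl t1 p) = p := by
    intro p hp
    rw [← hu2 Fl hG (-t1) t1 p hp, neg_add_cancel]
    exact hG.zero p hp
  -- smoothness of the time maps
  have hYO : IsOpen (YO Ω) := hUT.opn.preimage continuous_fst
  have hsm : ∀ t, ContDiffOn ℝ ∞ (Fl t) (YO Ω) := by
    intro t
    have h1 : ContDiffOn ℝ ∞ (fun p : Y => ((t, p) : ℝ × Y)) (YO Ω) :=
      (contDiff_const.prodMk contDiff_id).contDiffOn
    exact hG.smooth.comp h1 (fun p hp => hp)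
  have hcr : a (pr zL) = a (pr zR) := by
    obtain ⟨r0, hr0, hb0', -, h0⟩ := ha (zL, 0) hp0 (hneg zL (hRLs _ hzLm).1 (hRLs _ hzLm).2)
    obtain ⟨r1, hr1, hb1', -, h1⟩ := ha (zR, 0) hp1 (hneg zR (hRRs _ hzRm).1 (hRRs _ hzRm).2)
    rw [ae_restrict_iff' Metric.isOpen_ball.measurableSet, ae_iff] at h0 h1
    set N0 : Set Y := {p | ¬(p ∈ Metric.ball ((zL, 0) : Y) r0 → f (q p) = a (pr zL))} with hN0
    set N1 : Set Y := {p | ¬(p ∈ Metric.ball ((zR, 0) : Y) r1 → f (q p) = a (pr zR))} with hN1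
    have hN1s : N1 ⊆ YO Ω := by
      intro p hp
      rw [hN1, Set.mem_ofPred_eq, Classical.not_imp] at hp
      exact hb1' hp.1
    have hH : (volume : Measure Y).IsAddHaarMeasure := by
      show (volume : Measure (ℂ × ℝ)).IsAddHaarMeasure
      rw [Measure.volume_eq_prod]
      infer_instance
    have himg : volume (Fl (-t1) '' N1) = 0 :=
      addHaar_image_eq_zero_of_differentiableOn_of_addHaar_eq_zero volume
        (((hsm (-t1)).differentiableOn (by simp)).mono hN1s) h1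
    have hU : Metric.ball ((zL, 0) : Y) r0 ∩ Fl t1 ⁻¹' (Metric.ball ((zR, 0) : Y) r1) ∈
        𝓝 ((zL, 0) : Y) := by
      refine inter_mem (Metric.ball_mem_nhds _ hr0) ?_
      have hc : ContinuousAt (Fl t1) ((zL, 0) : Y) :=
        ((hsm t1).continuousOn).continuousAt (hYO.mem_nhds hp0)
      refine hc.preimage_mem_nhds ?_
      rw [hcrossing]
      exact Metric.ball_mem_nhds _ hr1
    have hpos : 0 < volume (Metric.ball ((zL, 0) : Y) r0 ∩
        Fl t1 ⁻¹' (Metric.ball ((zR, 0) : Y) r1)) :=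
      Measure.measure_pos_of_mem_nhds volume hU
    have hnn : ∃ p ∈ Metric.ball ((zL, 0) : Y) r0 ∩ Fl t1 ⁻¹' (Metric.ball ((zR, 0) : Y) r1),
        p ∉ N0 ∪ Fl (-t1) '' N1 := by
      by_contra hcon
      push Not at hcon
      have hle : volume (Metric.ball ((zL, 0) : Y) r0 ∩
          Fl t1 ⁻¹' (Metric.ball ((zR, 0) : Y) r1)) ≤ volume (N0 ∪ Fl (-t1) '' N1) :=
        measure_mono hcon
      have : volume (N0 ∪ Fl (-t1) '' N1) = 0 := measure_union_null h0 himg
      rw [this] at hle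
      exact absurd hpos (not_lt.2 hle)
    obtain ⟨p, ⟨hpa, hpb⟩, hpn⟩ := hnn
    have hpY : p ∈ YO Ω := hb0' hpa
    have e0 : f (q p) = a (pr zL) := by
      by_contra hne
      refine hpn (Or.inl ?_)
      rw [hN0, Set.mem_ofPred_eq, Classical.not_imp]
      exact ⟨hpa, hne⟩
    have e1 : f (q (Fl t1 p)) = a (pr zR) := by
      by_contra hne
      refine hpn (Or.inr ⟨Fl t1 p, ?_, hback p hpY⟩)
      rw [hN1, Set.mem_ofPred_eq, Classical.not_imp]
      exact ⟨hpb, hne⟩
    rw [← e0, ← e1]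
    exact (hf t1 p hpY).symm
  -- conclusion
  have hside : ∀ z ∈ Stp L δ', (z.re < 0 ∨ L < z.re) → a (pr z) = a (pr zL) := by
    intro z hz hz'
    rcases hz' with h | h
    · exact hLc z ⟨hz.1, h⟩ zL hzLm
    · rw [hcr]
      exact hRc z ⟨h, hz.2⟩ zR hzRm
  rw [hside z hz hz', hside w hw hw']

end Pool.Agent.Y115.EG
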